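import Mathlib

/-!
# A local loop lemma for odd cycles under absorption

Let `R` be a symmetric relation on a (possibly infinite) set with an odd cycle through `a`, and let
`f` be an idempotent operation compatible with `R` such that the neighbourhood of `a` absorbs
`{a}`.  Then `R` has a loop.

The proof builds a finite tree of applications of `f` whose leaves are labelled by a local rule on
words, and uses absorption only along long constant words.
-/

set_option autoImplicit false

namespace Pool.Agent.Results.MP_511665_al.LocalLoopLemma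

universe u

/-- `f` is idempotent. -/
def Idem {A : Type u} {n : ℕ} (f : (Fin n → A) → A) : Prop :=
  ∀ x : A, f (fun _ => x) = x

/-- `f` is compatible with the relation `R`. -/
def Compat {A : Type u} {n : ℕ} (f : (Fin n → A) → A) (R : A → A → Prop) : Prop :=
  ∀ x y : Fin n → A, (∀ i, R (x i) (y i)) → R (f x) (f y)

/-- `B` absorbs `C` with respect to `f`. -/
def Absorbs {A : Type u} {n : ℕ} (f : (Fin n → A) → A) (B C : Set A) : Prop :=
  ∀ (j : Fin n) (b : Fin n → A) (c : A), (∀ i, b i ∈ B) → c ∈ C →
    f (Function.update b j c) ∈ B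

/-- `c 0, …, c (l - 1)` is an odd cycle of `R`: `l ≥ 3` is odd, the elements are distinct,
consecutive ones are related, and so are the last and the first. -/
structure IsOddCycle {A : Type u} (R : A → A → Prop) (l : ℕ) (c : ℕ → A) : Prop where
  three_le : 3 ≤ l
  odd : Odd l
  inj : ∀ i < l, ∀ j < l, c i = c j → i = j
  edge : ∀ i, i + 1 < l → R (c i) (c (i + 1))
  close : R (c (l - 1)) (c 0)

/-! ### Words -/

section Words

variable {n : ℕ}

/-- The shift. -/
def sh (x : ℕ → Fin n) : ℕ → Fin n := fun k => x (k + 1)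

/-- The `r` letters of `x` from position `s` on are equal. -/
def Con (s r : ℕ) (x : ℕ → Fin n) : Prop := ∀ k < r, x (s + k) = x s

lemma con_mono {s r r' : ℕ} {x : ℕ → Fin n} (h : r' ≤ r) (hx : Con s r x) : Con s r' x :=
  fun k hk => hx k (lt_of_lt_of_le hk h)

lemma con_sh {s r : ℕ} {x : ℕ → Fin n} : Con s r (sh x) ↔ Con (s + 1) r x := by
  unfold Con sh
  constructor
  · intro h k hk
    have := h k hk
    rwa [show s + 1 + k = s + k + 1 by ring]
  · intro h k hk
    have := h k hk
    rwa [show s + 1 + k = s + k + 1 by ring] at this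

lemma con_congr {s r : ℕ} {x y : ℕ → Fin n} (h : ∀ i < s + r, x i = y i)
    (hx : Con s r x) : Con s r y := by
  intro k hk
  rw [← h (s + k) (by omega), ← h s (by omega)]
  exact hx k hk

/-- Adjacency of labels: a path `0, …, d` with a complete graph on the labels `≥ d`. -/
def adj (d i j : ℕ) : Prop :=
  (i + 1 = j ∧ j ≤ d) ∨ (j + 1 = i ∧ i ≤ d) ∨ (d ≤ i ∧ d ≤ j ∧ i ≠ j)

/-- A local labelling of words with `d + C` labels. -/
structure Lab (n d M C s K : ℕ) (T : (ℕ → Fin n) → ℕ) : Prop where
  zone : ∀ x, Con s M x → T x = 0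
  edge : ∀ x, Con s (M - 1) x → ¬ Con s M x → T x = 1
  step : ∀ x, ¬ Con s M x → adj d (T x) (T (sh x))
  loc : ∀ x y, (∀ i < K, x i = y i) → T x = T y
  lt : ∀ x, T x < d + C
  le : s + M ≤ K

/-- A label among `d, d+1, d+2` different from `p` and `q`. -/
def avoid (d p q : ℕ) : ℕ :=
  if p ≠ d ∧ q ≠ d then d else if p ≠ d + 1 ∧ q ≠ d + 1 then d + 1 else d + 2

lemma avoid_spec (d p q : ℕ) :
    avoid d p q ≠ p ∧ avoid d p q ≠ q ∧ d ≤ avoid d p q ∧ avoid d p q ≤ d + 2 := by
  unfold avoid
  split_ifs <;> omega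

lemma elim {d M C s K : ℕ} {T : (ℕ → Fin n) → ℕ} (hd : 1 ≤ d) (hC : 3 ≤ C)
    (h : Lab n d M (C + 1) s K T) :
    Lab n d M C (s + 1) (K + 2)
      (fun x => if T (sh x) < d + C then T (sh x) else avoid d (T x) (T (sh (sh x)))) := by
  refine ⟨?_, ?_, ?_, ?_, ?_, ?_⟩
  · intro x hx
    have h0 := h.zone (sh x) (con_sh.2 hx)
    simp only [h0]
    rw [if_pos (by omega)]
  · intro x hx hx'
    have h0 := h.edge (sh x) (con_sh.2 hx) (fun hh => hx' (con_sh.1 hh))
    simp only [h0]
    rw [if_pos (by omega)]
  · intro x hx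
    have h0 := h.step (sh x) (fun hh => hx (con_sh.1 hh))
    have l1 := h.lt (sh x)
    have l2 := h.lt (sh (sh x))
    obtain ⟨a1, a2, a3, a4⟩ := avoid_spec d (T x) (T (sh (sh x)))
    obtain ⟨b1, b2, b3, b4⟩ := avoid_spec d (T (sh x)) (T (sh (sh (sh x))))
    unfold adj at h0 ⊢
    split_ifs with h1 h2 h2 <;> omega
  · intro x y hxy
    have e0 := h.loc x y (fun i hi => hxy i (by omega))
    have e1 := h.loc (sh x) (sh y) (fun i hi => hxy (i + 1) (by omega))
    have e2 := h.loc (sh (sh x)) (sh (sh y)) (fun i hi => hxy (i + 1 + 1) (by omega))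
    simp only [e0, e1, e2]
  · intro x
    obtain ⟨a1, a2, a3, a4⟩ := avoid_spec d (T x) (T (sh (sh x)))
    split_ifs with h1
    · exact h1
    · omega
  · have := h.le
    omega

lemma elim_all {d M : ℕ} (hd : 1 ≤ d) (C : ℕ) :
    (∃ s K T, Lab n d M (C + 3) s K T) → ∃ s K T, Lab n d M 3 s K T := by
  induction C with
  | zero => exact fun h => h
  | succ C ih =>
    rintro ⟨s, K, T, h⟩
    exact ih ⟨_, _, _, elim hd (by omega) (show Lab n d M (C + 3 + 1) s K T from
      (by rwa [show C + 3 + 1 = C + 1 + 3 by ring]))⟩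

/-- `P t x`: there is a long constant block near the beginning of `x`. -/
def P (M t : ℕ) (x : ℕ → Fin n) : Prop := ∃ i ≤ t, Con i (M - t + i) x

lemma P_succ {M t : ℕ} {x : ℕ → Fin n} (h : P M t x) : P M (t + 1) x := by
  obtain ⟨i, hi, hc⟩ := h
  exact ⟨i, by omega, con_mono (by omega) hc⟩

lemma P_mono {M t t' : ℕ} {x : ℕ → Fin n} (ht : t ≤ t') (h : P M t x) : P M t' x := by
  induction t', ht using Nat.le_induction with
  | base => exact h
  | succ k _ ih => exact P_succ ih

lemma P_self (M : ℕ) (x : ℕ → Fin n) : P M M x :=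
  ⟨0, by omega, fun k hk => by omega⟩

lemma P_of_sh {M t : ℕ} {x : ℕ → Fin n} (ht : t < M) (h : P M t (sh x)) : P M (t + 1) x := by
  obtain ⟨i, hi, hc⟩ := h
  exact ⟨i + 1, by omega, con_mono (by omega) (con_sh.1 hc)⟩

lemma P_to_sh {M t : ℕ} {x : ℕ → Fin n} (h : P M t x) : P M (t + 1) (sh x) := by
  obtain ⟨i, hi, hc⟩ := h
  rcases Nat.eq_zero_or_pos i with h0 | h0
  · subst h0
    refine ⟨0, by omega, ?_⟩
    intro k hk
    have h1 := hc (k + 1) (by omega)
    have h2 := hc 1 (by omega)
    simp only [sh, Nat.zero_add] at *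
    rw [h1, h2]
  · refine ⟨i - 1, by omega, ?_⟩
    rw [con_sh, show i - 1 + 1 = i by omega]
    exact con_mono (by omega) hc

/-- The least `t` with `P t x`. -/
noncomputable def e (M : ℕ) (x : ℕ → Fin n) : ℕ := sInf {t | P M t x}

lemma e_le {M t : ℕ} {x : ℕ → Fin n} : e M x ≤ t ↔ P M t x := by
  constructor
  · intro h
    exact P_mono h (Nat.sInf_mem (s := {t | P M t x}) ⟨M, P_self M x⟩)
  · intro h
    exact Nat.sInf_le h

lemma P_zero {M : ℕ} {x : ℕ → Fin n} : P M 0 x ↔ Con 0 M x := by
  constructor
  · rintro ⟨i, hi, hc⟩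
    obtain rfl : i = 0 := by omega
    simpa using hc
  · intro h
    exact ⟨0, le_rfl, by simpa using h⟩

/-- The value of `e` changes by exactly one near long blocks. -/
lemma e_ne {M d : ℕ} {x : ℕ → Fin n} (hM : 2 * d + 2 ≤ M) (hx : ¬ Con 0 M x)
    (h1 : e M x ≤ d) (h : e M x = e M (sh x)) : False := by
  set t := e M x with ht
  have ht0 : 0 < t := by
    rcases Nat.eq_zero_or_pos t with h0 | h0
    · exact absurd (P_zero.1 (e_le.1 (le_of_eq (ht.symm.trans h0)))) hx
    · exact h0
  have hP : P M t x := e_le.1 le_rfl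
  have hnP : ¬ P M (t - 1) x := fun hh => by
    have := e_le.2 hh
    omega
  have hP' : P M t (sh x) := e_le.1 (le_of_eq h.symm)
  have hnP' : ¬ P M (t - 1) (sh x) := fun hh => by
    have := e_le.2 hh
    omega
  obtain ⟨i, hi, hc⟩ := hP
  have hi0 : i = 0 := by
    by_contra hne
    apply hnP'
    refine ⟨i - 1, by omega, ?_⟩
    rw [con_sh, show i - 1 + 1 = i by omega]
    exact con_mono (by omega) hc
  subst hi0
  obtain ⟨j, hj, hc'⟩ := hP'
  rw [con_sh] at hc'
  apply hnP
  refine ⟨0, by omega, ?_⟩
  intro k hk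
  simp only [Nat.zero_add]
  by_cases hk' : k < M - t
  · have := hc k (by omega)
    simpa using this
  · have a1 := hc' (k - (j + 1)) (by omega)
    rw [show j + 1 + (k - (j + 1)) = k by omega] at a1
    have a2 := hc (j + 1) (by omega)
    simp only [Nat.zero_add] at a2
    rw [a1, a2]

/-- The window of length `M` of a word, as a natural number. -/
noncomputable def code (M : ℕ) (x : ℕ → Fin n) : ℕ :=
  (Fintype.equivFin (Fin M → Fin n) (fun i => x i)).val

/-- The initial labelling. -/
noncomputable def T0 (d M : ℕ) (x : ℕ → Fin n) : ℕ :=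
  if e M x ≤ d then e M x else d + 1 + code M x

lemma lab0 (d : ℕ) (hd : 1 ≤ d) :
    Lab n d (2 * d + 2) (Fintype.card (Fin (2 * d + 2) → Fin n) + 3) 0 (3 * d + 3)
      (T0 d (2 * d + 2)) := by
  set M := 2 * d + 2 with hM
  have hPcongr : ∀ (t : ℕ) (x y : ℕ → Fin n), t ≤ d → (∀ i < 3 * d + 3, x i = y i) →
      P M t x → P M t y := by
    rintro t x y ht hxy ⟨i, hi, hc⟩
    exact ⟨i, hi, con_congr (fun k hk => hxy k (by omega)) hc⟩
  refine ⟨?_, ?_, ?_, ?_, ?_, ?_⟩
  · intro x hx
    have h0 : e M x = 0 := Nat.le_zero.1 (e_le.2 (P_zero.2 hx))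
    simp [T0, h0]
  · intro x hx hx'
    have h1 : e M x ≤ 1 := e_le.2 ⟨0, by omega, by simpa using hx⟩
    have h2 : e M x ≠ 0 := fun h0 => hx' (P_zero.1 (e_le.1 h0.le))
    have h3 : e M x = 1 := by omega
    simp [T0, h3, hd]
  · intro x hx
    have l1 : e M (sh x) ≤ d → e M x ≤ e M (sh x) + 1 := fun hh =>
      e_le.2 (P_of_sh (by omega) (e_le.1 le_rfl))
    have l2 : e M (sh x) ≤ e M x + 1 := e_le.2 (P_to_sh (e_le.1 le_rfl))
    have l3 : e M x ≤ d → e M x ≠ e M (sh x) := fun h1 h2 => e_ne (by omega) hx h1 h2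
    have l4 : code M x ≠ code M (sh x) := by
      intro hc
      apply hx
      have hw : (fun i : Fin M => x i) = (fun i : Fin M => sh x i) :=
        (Fintype.equivFin (Fin M → Fin n)).injective (Fin.ext hc)
      have hs : ∀ k < M, x k = x (k + 1) := fun k hk => congrFun hw ⟨k, hk⟩
      intro k hk
      rw [Nat.zero_add]
      induction k with
      | zero => rfl
      | succ k ih => rw [← hs k (by omega)]; exact ih (by omega)
    unfold T0 adj
    split_ifs with c1 c2 c2
    · have := l1 c2
      have := l3 c1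
      omega
    · omega
    · have := l1 c2
      omega
    · omega
  · intro x y hxy
    have key : ∀ t ≤ d, (e M x ≤ t ↔ e M y ≤ t) := fun t ht => by
      rw [e_le, e_le]
      exact ⟨hPcongr t x y ht hxy, hPcongr t y x ht (fun i hi => (hxy i hi).symm)⟩
    have hcode : code M x = code M y := by
      unfold code
      congr 2
      funext i
      exact hxy i (by have := i.2; omega)
    unfold T0
    by_cases c : e M x ≤ d
    · have c' := (key d le_rfl).1 c
      rw [if_pos c, if_pos c']
      exact le_antisymm ((key _ c').2 le_rfl) ((key _ c).1 le_rfl)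
    · have c' : ¬ e M y ≤ d := fun h => c ((key d le_rfl).2 h)
      rw [if_neg c, if_neg c', hcode]
  · intro x
    have : code M x < Fintype.card (Fin M → Fin n) := (Fintype.equivFin _ _).2
    unfold T0
    split_ifs <;> omega
  · omega

lemma exists_lab (n d : ℕ) (hd : 1 ≤ d) :
    ∃ s K T, Lab n d (2 * d + 2) 3 s K T :=
  elim_all hd _ ⟨_, _, _, lab0 d hd⟩

end Words


/-! ### Trees of applications of `f` -/

section Trees

variable {A : Type u} {n : ℕ}

/-- The value at depth `m` along the word `x` of the tree of height `m + k` whose leaves are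
labelled by `h`. -/
def ev (f : (Fin n → A) → A) (h : (ℕ → Fin n) → A) : ℕ → ℕ → (ℕ → Fin n) → A
  | 0, _, x => h x
  | k + 1, m, x => f (fun j => ev f h k (m + 1) (Function.update x m j))

lemma ev_congr {f : (Fin n → A) → A} {h : (ℕ → Fin n) → A} {K : ℕ}
    (hK : ∀ x y, (∀ i < K, x i = y i) → h x = h y) (k : ℕ) :
    ∀ (m : ℕ) (x y : ℕ → Fin n), K ≤ m + k → (∀ i < m, x i = y i) → ev f h k m x = ev f h k m y := by
  induction k with
  | zero =>
    intro m x y hm hxy
    exact hK x y (fun i hi => hxy i (by omega))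
  | succ k ih =>
    intro m x y hm hxy
    simp only [ev]
    congr 1
    funext j
    apply ih (m + 1) _ _ (by omega)
    intro i hi
    by_cases him : i = m
    · subst him
      simp
    · rw [Function.update_of_ne him, Function.update_of_ne him]
      exact hxy i (by omega)

lemma ev_const {f : (Fin n → A) → A} (hf : Idem f) {h : (ℕ → Fin n) → A} {c : A} (k : ℕ) :
    ∀ (m : ℕ) (x : ℕ → Fin n), (∀ y, (∀ i < m, y i = x i) → h y = c) → ev f h k m x = c := by
  induction k with
  | zero =>
    intro m x hx
    exact hx x (fun _ _ => rfl)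
  | succ k ih =>
    intro m x hx
    simp only [ev]
    have : (fun j => ev f h k (m + 1) (Function.update x m j)) = fun _ => c := by
      funext j
      apply ih
      intro y hy
      apply hx
      intro i hi
      rw [hy i (by omega), Function.update_of_ne (by omega)]
    rw [this, hf]

lemma sh_update {x : ℕ → Fin n} {m : ℕ} (hm : 1 ≤ m) (j : Fin n) :
    Function.update (sh x) (m - 1) j = sh (Function.update x m j) := by
  funext i
  by_cases hi : i = m - 1
  · subst hi
    simp [sh, Nat.sub_add_cancel hm]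
  · rw [Function.update_of_ne hi]
    simp only [sh]
    rw [Function.update_of_ne (by omega)]

/-- The main step: comparing the tree with its shift. -/
lemma ev_step {f : (Fin n → A) → A} (hf : Idem f) {R : A → A → Prop} (hc : Compat f R)
    {a b : A} (hab : R a b) (habs : Absorbs f {x | R a x} {a})
    {h : (ℕ → Fin n) → A} {s M K : ℕ} (hM : 2 ≤ M) (hsK : s + M ≤ K)
    (hzone : ∀ x, Con s M x → h x = a)
    (hedge : ∀ x, Con s (M - 1) x → ¬ Con s M x → h x = b)
    (hstep : ∀ x, ¬ Con s M x → R (h x) (h (sh x)))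
    (hloc : ∀ x y, (∀ i < K, x i = y i) → h x = h y) (k : ℕ) :
    ∀ (m : ℕ) (x : ℕ → Fin n), m + k = K + 1 → 1 ≤ m → (m ≤ s + M ∨ ¬ Con s M x) →
      R (ev f h k m x) (ev f h (k + 1) (m - 1) (sh x)) := by
  induction k with
  | zero =>
    intro m x hm hm1 hgood
    have hx : ¬ Con s M x := by
      rcases hgood with h1 | h1
      · omega
      · exact h1
    have e1 : ev f h (0 + 1) (m - 1) (sh x) = h (sh x) := by
      simp only [ev]
      have : (fun j => h (Function.update (sh x) (m - 1) j)) = fun _ => h (sh x) := by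
        funext j
        apply hloc
        intro i hi
        rw [Function.update_of_ne (by omega)]
      rw [this, hf]
    rw [e1]
    exact hstep x hx
  | succ k ih =>
    intro m x hm hm1 hgood
    by_cases hz : m = s + M ∧ Con s M x
    · obtain ⟨hmz, hx⟩ := hz
      have e1 : ev f h (k + 1) m x = a := by
        apply ev_const hf
        intro y hy
        apply hzone
        exact con_congr (fun i hi => (hy i (by omega)).symm) hx
      rw [e1]
      have e2 : ev f h (k + 1 + 1) (m - 1) (sh x) = f (Function.update (fun _ => b) (x s) a) := by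
        rw [ev]
        congr 1
        funext j
        have hpre : ∀ y : ℕ → Fin n,
            (∀ i < m - 1 + 1, y i = Function.update (sh x) (m - 1) j i) → ∀ i < M - 1, y (s + i) = x s := by
          intro y hy i hi
          rw [hy (s + i) (by omega), Function.update_of_ne (by omega)]
          simp only [sh]
          rw [show s + i + 1 = s + (i + 1) by ring]
          exact hx (i + 1) (by omega)
        by_cases hj : j = x s
        · subst hj
          rw [Function.update_self]
          apply ev_const hf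
          intro y hy
          apply hzone
          have h1 : y (s + (M - 1)) = x s := by
            rw [hy _ (by omega), show s + (M - 1) = m - 1 by omega, Function.update_self]
          have h2 : ∀ i < M, y (s + i) = x s := by
            intro i hi
            by_cases hi' : i = M - 1
            · rw [hi', h1]
            · exact hpre y hy i (by omega)
          intro i hi
          rw [h2 i hi]
          have := h2 0 (by omega)
          rw [Nat.add_zero] at this
          rw [this]
        · rw [Function.update_of_ne hj]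
          apply ev_const hf
          intro y hy
          have h1 : y (s + (M - 1)) = j := by
            rw [hy _ (by omega), show s + (M - 1) = m - 1 by omega, Function.update_self]
          have h0 : y s = x s := by
            have := hpre y hy 0 (by omega)
            rwa [Nat.add_zero] at this
          apply hedge
          · intro i hi
            rw [hpre y hy i hi, h0]
          · intro hcon
            have := hcon (M - 1) (by omega)
            rw [h1, h0] at this
            exact hj this
      rw [e2]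
      exact habs (x s) (fun _ => b) a (fun _ => hab) rfl
    · rw [ev, ev]
      apply hc
      intro j
      have e3 : m - 1 + 1 = m + 1 - 1 := by omega
      rw [sh_update hm1, e3]
      apply ih (m + 1) _ (by omega) (by omega)
      by_cases hms : m < s + M
      · exact Or.inl (by omega)
      · right
        intro hcon
        have hcon' : Con s M (Function.update x m j) → Con s M x := fun hh =>
          con_congr (x := Function.update x m j) (y := x)
            (fun i hi => Function.update_of_ne (show i ≠ m by omega) _ _) hh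
        apply hz
        refine ⟨?_, ?_⟩
        · rcases hgood with h1 | h1
          · omega
          · exact absurd (hcon' hcon) h1
        · exact hcon' hcon

/-- A local labelling of words produces a loop. -/
lemma loop_of_lab {f : (Fin n → A) → A} (hf : Idem f) {R : A → A → Prop} (hc : Compat f R)
    {a b : A} (hab : R a b) (habs : Absorbs f {x | R a x} {a})
    {h : (ℕ → Fin n) → A} {s M K : ℕ} (hM : 2 ≤ M) (hsK : s + M ≤ K) (hn : 0 < n)
    (hzone : ∀ x, Con s M x → h x = a)
    (hedge : ∀ x, Con s (M - 1) x → ¬ Con s M x → h x = b)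
    (hstep : ∀ x, ¬ Con s M x → R (h x) (h (sh x)))
    (hloc : ∀ x y, (∀ i < K, x i = y i) → h x = h y)
    (Q : A → Prop) (hQf : ∀ x : Fin n → A, (∀ i, Q (x i)) → Q (f x)) (hQh : ∀ x, Q (h x)) :
    ∃ t, R t t ∧ Q t := by
  have hQev : ∀ (k m : ℕ) (x : ℕ → Fin n), Q (ev f h k m x) := by
    intro k
    induction k with
    | zero => exact fun m x => hQh x
    | succ k ih => exact fun m x => hQf _ (fun j => ih _ _)
  let x0 : ℕ → Fin n := fun _ => ⟨0, hn⟩
  have hroot : ∀ y : ℕ → Fin n, ev f h (K + 1) 0 y = ev f h (K + 1) 0 x0 := fun y =>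
    ev_congr hloc (K + 1) 0 y x0 (by omega) (fun i hi => absurd hi (Nat.not_lt_zero i))
  refine ⟨ev f h (K + 1) 0 x0, ?_, hQev _ _ _⟩
  have h1 : ∀ j : Fin n, R (ev f h K 1 (Function.update x0 0 j)) (ev f h (K + 1) 0 x0) := by
    intro j
    have := ev_step hf hc hab habs hM hsK hzone hedge hstep hloc K 1 (Function.update x0 0 j)
      (by omega) le_rfl (Or.inl (by omega))
    rwa [Nat.sub_self, hroot] at this
  have h2 := hc _ _ h1
  rw [hf] at h2
  have h3 : ev f h (K + 1) 0 x0 = f (fun j => ev f h K 1 (Function.update x0 0 j)) := by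
    rw [ev]
  rw [← h3] at h2
  exact h2

/-- A loop from a triangle connected to `a`. -/
lemma loop_of_triangle {f : (Fin n → A) → A} (hf : Idem f) (hn : 0 < n) {R : A → A → Prop}
    (hs : ∀ x y, R x y → R y x) (hc : Compat f R) {a : A} (habs : Absorbs f {x | R a x} {a})
    (d : ℕ) (hd : 1 ≤ d) (v : ℕ → A) (hv0 : v 0 = a) (hv : ∀ i < d, R (v i) (v (i + 1)))
    (y z : A) (h1 : R (v d) y) (h2 : R y z) (h3 : R z (v d))
    (Q : A → Prop) (hQf : ∀ x : Fin n → A, (∀ i, Q (x i)) → Q (f x))
    (hQv : ∀ i ≤ d, Q (v i)) (hQy : Q y) (hQz : Q z) :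
    ∃ t, R t t ∧ Q t := by
  obtain ⟨s, K, T, hT⟩ := exists_lab n d hd
  let val : ℕ → A := fun i => if i ≤ d then v i else if i = d + 1 then y else z
  have hvd : val d = v d := by simp [val]
  have hvy : val (d + 1) = y := by simp [val]
  have hvz : val (d + 2) = z := by simp [val]
  have hadj : ∀ i j, i < d + 3 → j < d + 3 → adj d i j → R (val i) (val j) := by
    intro i j hi hj hij
    rcases hij with ⟨h, h'⟩ | ⟨h, h'⟩ | ⟨h, h', h''⟩
    · subst h
      simp only [val]
      rw [if_pos (by omega), if_pos h']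
      exact hv i (by omega)
    · subst h
      simp only [val]
      rw [if_pos (by omega), if_pos (by omega)]
      exact hs _ _ (hv j (by omega))
    · have ci : i = d ∨ i = d + 1 ∨ i = d + 2 := by omega
      have cj : j = d ∨ j = d + 1 ∨ j = d + 2 := by omega
      rcases ci with ci | ci | ci <;> rcases cj with cj | cj | cj <;> rw [ci, cj] <;>
        first
          | exact absurd (ci.trans cj.symm) h''
          | (rw [hvd, hvy]; exact h1)
          | (rw [hvy, hvd]; exact hs _ _ h1)
          | (rw [hvy, hvz]; exact h2)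
          | (rw [hvz, hvy]; exact hs _ _ h2)
          | (rw [hvz, hvd]; exact h3)
          | (rw [hvd, hvz]; exact hs _ _ h3)
  have hval : ∀ i < d + 3, Q (val i) := by
    intro i hi
    simp only [val]
    split_ifs with c1 c2
    · exact hQv i c1
    · exact hQy
    · exact hQz
  have hab : R a (v 1) := by
    have := hv 0 (by omega)
    rwa [hv0] at this
  refine loop_of_lab hf hc hab habs (h := fun x => val (T x)) (M := 2 * d + 2) (by omega) hT.le hn
    ?_ ?_ ?_ ?_ Q hQf ?_
  · intro x hx
    simp [val, hT.zone x hx, hv0]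
  · intro x hx hx'
    simp [val, hT.edge x hx hx', hd]
  · intro x hx
    exact hadj _ _ (hT.lt x) (hT.lt _) (hT.step x hx)
  · intro x y hxy
    simp only [hT.loc x y hxy]
  · intro x
    exact hval _ (hT.lt x)

end Trees

/-! ### Walks -/

section Walks

variable {A : Type u}

/-- Walks of length `k`. -/
def W (R : A → A → Prop) : ℕ → A → A → Prop
  | 0, x, y => x = y
  | k + 1, x, y => ∃ z, R x z ∧ W R k z y

lemma W_add {R : A → A → Prop} {j k : ℕ} {x y z : A} (h1 : W R j x y) (h2 : W R k y z) :
    W R (j + k) x z := by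
  induction j generalizing x with
  | zero =>
    obtain rfl : x = y := h1
    simpa using h2
  | succ j ih =>
    obtain ⟨w, hw, hw'⟩ := h1
    rw [show j + 1 + k = j + k + 1 by ring]
    exact ⟨w, hw, ih hw'⟩

lemma W_split {R : A → A → Prop} {j k : ℕ} {x z : A} (h : W R (j + k) x z) :
    ∃ y, W R j x y ∧ W R k y z := by
  induction j generalizing x with
  | zero => exact ⟨x, rfl, by simpa using h⟩
  | succ j ih =>
    rw [show j + 1 + k = j + k + 1 by ring] at h
    obtain ⟨w, hw, hw'⟩ := h
    obtain ⟨y, hy, hy'⟩ := ih hw'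
    exact ⟨y, ⟨w, hw, hy⟩, hy'⟩

lemma W_one {R : A → A → Prop} {x y : A} : W R 1 x y ↔ R x y := by
  constructor
  · rintro ⟨z, hz, rfl⟩
    exact hz
  · intro h
    exact ⟨y, h, rfl⟩

lemma W_symm {R : A → A → Prop} (hs : ∀ x y, R x y → R y x) {k : ℕ} :
    ∀ x y, W R k x y → W R k y x := by
  induction k with
  | zero => exact fun x y h => h.symm
  | succ k ih =>
    rintro x y ⟨z, hz, hz'⟩
    exact W_add (ih _ _ hz') (W_one.2 (hs _ _ hz))

lemma W_compat {n : ℕ} {f : (Fin n → A) → A} {R : A → A → Prop} (hc : Compat f R) (k : ℕ) :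
    Compat f (W R k) := by
  induction k with
  | zero =>
    intro x y h
    show f x = f y
    rw [show x = y from funext h]
  | succ k ih =>
    intro x y h
    choose z hz hz' using h
    exact ⟨f z, hc _ _ hz, ih _ _ hz'⟩

lemma W_even {R : A → A → Prop} (hs : ∀ x y, R x y → R y x) {a b : A} (hab : R a b) (k : ℕ) :
    W R (2 * k) a a := by
  induction k with
  | zero => rfl
  | succ k ih => exact ⟨b, hab, a, hs _ _ hab, ih⟩

lemma W_mul {R : A → A → Prop} {s j : ℕ} {x y : A} (h : W R (j * s) x y) : W (W R s) j x y := by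
  induction j generalizing x with
  | zero => simpa [W] using h
  | succ j ih =>
    rw [show (j + 1) * s = s + j * s by ring] at h
    obtain ⟨z, hz, hz'⟩ := W_split h
    exact ⟨z, hz, ih hz'⟩

lemma W_path {S : A → A → Prop} {j : ℕ} {x y : A} (h : W S j x y) :
    ∃ v : ℕ → A, v 0 = x ∧ v j = y ∧ ∀ i < j, S (v i) (v (i + 1)) := by
  induction j generalizing x with
  | zero =>
    obtain rfl : x = y := h
    exact ⟨fun _ => x, rfl, rfl, fun i hi => absurd hi (Nat.not_lt_zero i)⟩
  | succ j ih =>
    obtain ⟨z, hz, hz'⟩ := h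
    obtain ⟨v, h0, h1, h2⟩ := ih hz'
    refine ⟨fun i => if i = 0 then x else v (i - 1), by simp, by simp [h1], ?_⟩
    intro i hi
    rcases Nat.eq_zero_or_pos i with rfl | hpos
    · simpa [h0] using hz
    · simp only [Nat.ne_of_gt hpos, if_false, Nat.add_sub_cancel, Nat.add_one_ne_zero]
      have := h2 (i - 1) (by omega)
      rwa [Nat.sub_add_cancel hpos] at this

lemma W_path_reach {S : A → A → Prop} {j : ℕ} {v : ℕ → A} (h : ∀ i < j, S (v i) (v (i + 1))) :
    ∀ i ≤ j, W S i (v 0) (v i) := by
  intro i
  induction i with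
  | zero => exact fun _ => rfl
  | succ i ih => exact fun hi => W_add (ih (by omega)) (W_one.2 (h i (by omega)))

/-- Odd powers of `R` inherit absorption. -/
lemma absorbs_odd {n : ℕ} {f : (Fin n → A) → A} {R : A → A → Prop}
    (hs : ∀ x y, R x y → R y x) (hc : Compat f R) {a b : A} (hab : R a b)
    (habs : Absorbs f {x | R a x} {a}) (r : ℕ) :
    Absorbs f {x | W R (2 * r + 1) a x} {a} := by
  intro j w c hw hca
  obtain rfl : c = a := hca
  choose z hz hz' using hw
  refine ⟨f (Function.update z j c), habs j z c hz rfl, ?_⟩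
  apply W_compat hc
  intro i
  by_cases hi : i = j
  · subst hi
    rw [Function.update_self, Function.update_self]
    exact W_even hs hab r
  · rw [Function.update_of_ne hi, Function.update_of_ne hi]
    exact hz' i

end Walks

/-- The elements reached from `a` by walks of all large lengths. -/
def Q {A : Type u} (R : A → A → Prop) (a x : A) : Prop := ∃ N, ∀ k ≥ N, W R k a x

lemma Q_f {A : Type u} {n : ℕ} {f : (Fin n → A) → A} (hf : Idem f) {R : A → A → Prop}
    (hc : Compat f R) {a : A} (x : Fin n → A) (hx : ∀ i, Q R a (x i)) : Q R a (f x) := by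
  choose N hN using hx
  refine ⟨Finset.univ.sup N, fun k hk => ?_⟩
  have := W_compat hc k (fun _ => a) x
    (fun i => hN i k (le_trans (Finset.le_sup (Finset.mem_univ i)) hk))
  rwa [hf] at this

lemma Q_walk {A : Type u} {R : A → A → Prop} {a x y : A} {j : ℕ} (hx : Q R a x) (h : W R j x y) :
    Q R a y := by
  obtain ⟨N, hN⟩ := hx
  refine ⟨N + j, fun k hk => ?_⟩
  have := W_add (hN (k - j) (by omega)) h
  rwa [Nat.sub_add_cancel (by omega)] at this

lemma Q_walk_pow {A : Type u} {R : A → A → Prop} {a x y : A} {s j : ℕ} (hx : Q R a x)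
    (h : W (W R s) j x y) : Q R a y := by
  induction j generalizing x with
  | zero =>
    obtain rfl : x = y := h
    exact hx
  | succ j ih =>
    obtain ⟨z, hz, hz'⟩ := h
    exact ih (Q_walk hx hz) hz'

lemma descend {A : Type u} {n : ℕ} {f : (Fin n → A) → A} (hf : Idem f) (hn : 0 < n)
    {R : A → A → Prop} (hs : ∀ x y, R x y → R y x) (hc : Compat f R) {a b : A} (hab : R a b)
    (habs : Absorbs f {x | R a x} {a}) (hQa : Q R a a) (e : ℕ) :
    ∀ t, Q R a t → W R (3 ^ e) t t → ∃ x, R x x := by
  induction e with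
  | zero =>
    intro t _ h
    exact ⟨t, W_one.1 (by simpa using h)⟩
  | succ e ih =>
    intro t hQ h
    rw [show 3 ^ (e + 1) = 3 ^ e + (3 ^ e + 3 ^ e) by ring] at h
    obtain ⟨y, h1, h'⟩ := W_split h
    obtain ⟨z, h2, h3⟩ := W_split h'
    obtain ⟨r, hr⟩ : Odd (3 ^ e) := Odd.pow (by decide)
    obtain ⟨N, hN⟩ := id hQ
    have hpos : 1 ≤ 3 ^ e := Nat.one_le_pow _ _ (by norm_num)
    have hw : W R ((N + 1) * 3 ^ e) a t := hN _ (by nlinarith)
    obtain ⟨v, hv0, hvj, hv⟩ := W_path (W_mul hw)
    have habs' : Absorbs f {x | W R (3 ^ e) a x} {a} := by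
      rw [hr]
      exact absorbs_odd hs hc hab habs r
    obtain ⟨t', ht', hQt'⟩ := loop_of_triangle hf hn (W_symm hs) (W_compat hc (3 ^ e)) habs' (N + 1)
      (by omega) v hv0 hv y z (by rw [hvj]; exact h1) h2 (by rw [hvj]; exact h3) (Q R a)
      (Q_f hf hc) (fun i hi => by
        have := W_path_reach hv i hi
        rw [hv0] at this
        exact Q_walk_pow hQa this) (Q_walk hQ h1) (Q_walk (Q_walk hQ h1) h2)
    exact ih t' hQt' ht'

/-- **Local loop lemma for odd cycles.**  Let `R` be a symmetric relation on a set `A`, possibly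
infinite, which contains an odd cycle `c 0, …, c (l-1)`, and let `f` be an `n`-ary operation on
`A`, `n ≥ 1`, which is idempotent and compatible with `R` and is such that the neighbourhood of
`c 0` absorbs `{c 0}`.  Then `R` has a loop. -/
theorem result {A : Type u} (R : A → A → Prop) (hsymm : ∀ x y, R x y → R y x)
    (l : ℕ) (c : ℕ → A) (hcyc : IsOddCycle R l c)
    (n : ℕ) (hn : 1 ≤ n) (f : (Fin n → A) → A) (hidem : Idem f) (hcomp : Compat f R)
    (habs : Absorbs f {x | R (c 0) x} {c 0}) :
    ∃ x, R x x := by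
  obtain ⟨hl, hodd, -, hedge, hclose⟩ := hcyc
  have hab : R (c 0) (c 1) := hedge 0 (by omega)
  have hW : W R l (c 0) (c 0) := by
    have h1 : W R (l - 1) (c 0) (c (l - 1)) :=
      W_path_reach (j := l - 1) (fun i hi => hedge i (by omega)) (l - 1) le_rfl
    have := W_add h1 (W_one.2 hclose)
    rwa [Nat.sub_add_cancel (by omega)] at this
  have hQ : Q R (c 0) (c 0) := by
    refine ⟨l, fun k hk => ?_⟩
    obtain ⟨m, hm⟩ := hodd
    rcases Nat.even_or_odd k with ⟨r, hr⟩ | ⟨r, hr⟩
    · have := W_even hsymm hab r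
      rwa [show k = 2 * r by omega]
    · have := W_add hW (W_even hsymm hab (r - m))
      rwa [show k = l + 2 * (r - m) by omega]
  obtain ⟨N, hN⟩ := id hQ
  have hbig : N ≤ 3 ^ N := (Nat.lt_pow_self (by norm_num)).le
  exact descend hidem hn hsymm hcomp hab habs hQ N (c 0) hQ (hN _ hbig)


end Pool.Agent.Results.MP_511665_al.LocalLoopLemma
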